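import Pool.Agent.J4H22.IX.Stm

set_option autoImplicit false

/-! # Project IX, (HB): few multipliers are bad -/

namespace Pool.Agent.J4H94.IX

open Finset Pool.Agent.J4H22.IX

theorem t_HB : S_HB := by
  classical
  intro p q n N A B z hp h2N hn hq hnp hqp hA hB hAN hBN hz
  have hp0 : 0 < p := hp.pos
  have : Fact p.Prime := ⟨hp⟩
  -- the bad multipliers are in the union over the pairs and over `d`
  set T := ((A ×ˢ B).filter (fun e => e.1 + e.2 ≠ z)) ×ˢ ((Ioo (-(2 * q : ℤ)) (2 * q)).erase 0) with hT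
  set S := {a : ℕ | 1 ≤ a ∧ a < p ∧ ∃ x ∈ A, ∃ y ∈ B, x + y ≠ z ∧ ∃ d : ℤ, |d| < 2 * q ∧
    (p : ℤ) ∣ (a : ℤ) * (x + y - z) - d} with hS
  -- the unique multiplier of a pair and of `d`
  let g : (ℕ × ℕ) × ℤ → ℕ := fun e => ((e.2 : ZMod p) * ((e.1.1 : ZMod p) + e.1.2 - z)⁻¹).val
  have hsub : S ⊆ ((T.image g : Finset ℕ) : Set ℕ) := by
    rintro a ⟨h1, h2, x, hx, y, hy, hxy, d, hd, hdvd⟩
    have hne : ((x : ZMod p) + y - z) ≠ 0 := by
      intro h0
      have h3 : (((x : ℤ) + y - z : ℤ) : ZMod p) = 0 := by push_cast; exact h0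
      rw [ZMod.intCast_zmod_eq_zero_iff_dvd] at h3
      have h4 := Int.eq_zero_of_abs_lt_dvd h3 (by
        have := hAN x hx
        have := hBN y hy
        rw [abs_lt]
        constructor <;> omega)
      omega
    have hda : (a : ZMod p) * ((x : ZMod p) + y - z) = d := by
      have h3 := (ZMod.intCast_zmod_eq_zero_iff_dvd _ p).2 hdvd
      push_cast at h3
      exact sub_eq_zero.1 h3
    rw [mem_coe, mem_image]
    refine ⟨((x, y), d), ?_, ?_⟩
    · rw [hT, mem_product, mem_filter, mem_product, mem_erase, mem_Ioo]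
      refine ⟨⟨⟨hx, hy⟩, hxy⟩, ?_, abs_lt.1 hd⟩
      rintro rfl
      rw [Int.cast_zero, mul_eq_zero] at hda
      rcases hda with h | h
      · rw [ZMod.natCast_eq_zero_iff] at h
        exact absurd (Nat.le_of_dvd h1 h) (by omega)
      · exact hne h
    · show ((d : ZMod p) * ((x : ZMod p) + y - z)⁻¹).val = a
      rw [← hda, mul_assoc, mul_inv_cancel₀ hne, mul_one]
      exact ZMod.val_cast_of_lt h2
  have hcard : S.ncard ≤ n * n * (4 * q - 2) := by
    calc S.ncard ≤ ((T.image g : Finset ℕ) : Set ℕ).ncard := Set.ncard_le_ncard hsub (Finset.finite_toSet _)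
      _ = (T.image g).card := Set.ncard_coe_finset _
      _ ≤ T.card := card_image_le
      _ ≤ n * n * (4 * q - 2) := by
        rw [hT, card_product]
        apply Nat.mul_le_mul
        · refine (card_filter_le _ _).trans ?_
          rw [card_product]
          exact Nat.mul_le_mul hA hB
        · rw [card_erase_of_mem (by rw [mem_Ioo]; constructor <;> omega), Int.card_Ioo]
          omega
  obtain ⟨r, rfl⟩ : ∃ r, q = r + 1 := ⟨q - 1, by omega⟩
  have e1 : 4 * (r + 1) - 2 = 4 * r + 2 := by omega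
  rw [e1] at hcard
  rw [Nat.add_sub_cancel] at hqp
  have hn1 : 1 ≤ n ^ 2 := Nat.one_le_pow _ _ hn
  have e2 : n * n * (4 * r + 2) = 4 * (n ^ 2 * r) + 2 * n ^ 2 := by ring
  rw [e2] at hcard
  have e3 : 64 * n ^ 2 * r = 64 * (n ^ 2 * r) := by ring
  rw [e3] at hqp
  omega

end Pool.Agent.J4H94.IX
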