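import Pool.Agent.J4H22.IX.Stm

set_option autoImplicit false

/-! # Project IX, (HG): a multiplier is good if no false pair comes near -/

namespace Pool.Agent.J4H94.IX

open Finset Pool.Agent.J4H22.IX

theorem mod_rep (p c : ℕ) : ∃ k : ℕ, c = p * k + c % p := ⟨c / p, (Nat.div_add_mod _ _).symm⟩

/-- floors -/
theorem near_aux {q X Y W : ℕ} (hq : 1 ≤ q) (h : X / q + Y / q = W / q ∨ X / q + Y / q = W / q - 1) :
    |((X : ℤ) + Y - W)| < 2 * q := by
  obtain ⟨u, hu⟩ : ∃ u, u = X / q := ⟨_, rfl⟩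
  obtain ⟨u', hu'⟩ : ∃ u, u = Y / q := ⟨_, rfl⟩
  obtain ⟨t, ht⟩ : ∃ u, u = W / q := ⟨_, rfl⟩
  have h1 := Nat.div_add_mod X q
  have h2 := Nat.div_add_mod Y q
  have h3 := Nat.div_add_mod W q
  have h1' := Nat.mod_lt X hq
  have h2' := Nat.mod_lt Y hq
  have h3' := Nat.mod_lt W hq
  rw [← hu] at h1 h
  rw [← hu'] at h2 h
  rw [← ht] at h3 h
  have key : q * u + q * u' = q * t ∨ q * u + q * u' + q = q * t := by
    rcases h with h | h
    · left; rw [← mul_add, h]
    · rcases Nat.eq_zero_or_pos t with h0 | h0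
      · left; rw [← mul_add, h, h0]
      · right
        rw [← mul_add, h, ← mul_add_one, Nat.sub_add_cancel (by omega : 1 ≤ t)]
  rw [abs_lt]
  rcases key with h | h <;> constructor <;> omega

theorem near {p q a x y z : ℕ} (hq : 1 ≤ q) (b : Fin 4)
    (h : hsh p q a x + hsh p q a y = qry p q a z b) :
    ∃ d : ℤ, |d| < 2 * q ∧ (p : ℤ) ∣ (a : ℤ) * (x + y - z) - d := by
  unfold hsh at h
  obtain ⟨kx, hkx⟩ := mod_rep p (a * x)
  obtain ⟨ky, hky⟩ := mod_rep p (a * y)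
  obtain ⟨kz, hkz⟩ := mod_rep p (a * z)
  have hq' : (a * x % p) / q + (a * y % p) / q = (a * z % p) / q ∨
      (a * x % p) / q + (a * y % p) / q = (a * z % p) / q - 1 ∨
      (a * x % p) / q + (a * y % p) / q = (a * z % p + p) / q ∨
      (a * x % p) / q + (a * y % p) / q = (a * z % p + p) / q - 1 := by
    unfold qry at h
    split_ifs at h
    · exact Or.inl h
    · exact Or.inr (Or.inl h)
    · exact Or.inr (Or.inr (Or.inl h))
    · exact Or.inr (Or.inr (Or.inr h))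
  generalize a * x % p = X at *
  generalize a * y % p = Y at *
  generalize a * z % p = Z at *
  have zx : (a : ℤ) * x = p * kx + X := by exact_mod_cast hkx
  have zy : (a : ℤ) * y = p * ky + Y := by exact_mod_cast hky
  have zz : (a : ℤ) * z = p * kz + Z := by exact_mod_cast hkz
  have c1 : (X / q + Y / q = Z / q ∨ X / q + Y / q = Z / q - 1) →
      ∃ d : ℤ, |d| < 2 * q ∧ (p : ℤ) ∣ (a : ℤ) * (x + y - z) - d := fun h1 =>
    ⟨(X : ℤ) + Y - Z, near_aux hq h1, ⟨kx + ky - kz, by linear_combination zx + zy - zz⟩⟩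
  have c2 : (X / q + Y / q = (Z + p) / q ∨ X / q + Y / q = (Z + p) / q - 1) →
      ∃ d : ℤ, |d| < 2 * q ∧ (p : ℤ) ∣ (a : ℤ) * (x + y - z) - d := fun h1 =>
    ⟨(X : ℤ) + Y - ((Z + p : ℕ) : ℤ), near_aux hq h1,
      ⟨kx + ky - kz + 1, by push_cast; linear_combination zx + zy - zz⟩⟩
  rcases hq' with h1 | h1 | h1 | h1
  · exact c1 (Or.inl h1)
  · exact c1 (Or.inr h1)
  · exact c2 (Or.inl h1)
  · exact c2 (Or.inr h1)

theorem exists_qry {p q a x y z : ℕ} (hp : 1 ≤ p) (hq : 1 ≤ q) (h : x + y = z) :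
    ∃ b, hsh p q a x + hsh p q a y = qry p q a z b := by
  unfold hsh
  have hX := Nat.mod_lt (a * x) hp
  have hY := Nat.mod_lt (a * y) hp
  have hZ := Nat.mod_lt (a * z) hp
  have hs : a * x % p + a * y % p = a * z % p ∨ a * x % p + a * y % p = a * z % p + p := by
    have h1 : (a * x % p + a * y % p) % p = a * z % p := by
      rw [← Nat.add_mod, ← h, mul_add]
    rcases lt_or_ge (a * x % p + a * y % p) p with h2 | h2
    · left; rw [← h1, Nat.mod_eq_of_lt h2]
    · right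
      rw [Nat.mod_eq_sub_mod h2, Nat.mod_eq_of_lt (by omega)] at h1
      omega
  generalize a * x % p = X at *
  generalize a * y % p = Y at *
  have key : ∀ W, X + Y = W → X / q + Y / q = W / q ∨ X / q + Y / q = W / q - 1 := by
    intro W hW
    rw [← hW]
    have h1 : X / q + Y / q ≤ (X + Y) / q := Nat.div_add_div_le_add_div
    have h2 : (X + Y) / q ≤ X / q + Y / q + 1 := by
      rw [Nat.add_div hq]
      split_ifs
      · exact le_rfl
      · exact Nat.le_succ _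
    generalize X / q = s₁ at *
    generalize Y / q = s₂ at *
    generalize (X + Y) / q = s₃ at *
    omega
  rcases hs with h1 | h1
  · rcases key _ h1 with h2 | h2
    · exact ⟨0, by unfold qry; rw [if_pos rfl]; exact h2⟩
    · exact ⟨1, by unfold qry; rw [if_neg (by decide), if_pos rfl]; exact h2⟩
  · rcases key _ h1 with h2 | h2
    · exact ⟨2, by unfold qry; rw [if_neg (by decide), if_neg (by decide), if_pos rfl]; exact h2⟩
    · exact ⟨3, by
        unfold qry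
        rw [if_neg (by decide), if_neg (by decide), if_neg (by decide)]
        exact h2⟩

theorem t_HG : S_HG := by
  classical
  intro p q A B z a hq hp hz hbad
  have key : ∀ x ∈ A, ∀ y ∈ B, ∀ b, hsh p q a x + hsh p q a y = qry p q a z b → x + y = z := by
    intro x hx y hy b hb
    by_contra hne
    obtain ⟨d, hd, hdvd⟩ := near hq b hb
    exact hbad x hx y hy hne d hd hdvd
  have huniq : ∀ x ∈ A, ∀ y ∈ B, ∀ x' ∈ A, ∀ y' ∈ B, x + y = z → x' + y' = z → x = x' ∧ y = y' := by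
    intro x hx y hy x' hx' y' hy' h h'
    have h1 := card_le_one.1 hz (x, y) (by rw [mem_filter, mem_product]; exact ⟨⟨hx, hy⟩, h⟩)
      (x', y') (by rw [mem_filter, mem_product]; exact ⟨⟨hx', hy'⟩, h'⟩)
    rw [Prod.mk.injEq] at h1
    exact h1
  refine ⟨fun b => ?_, fun ⟨b, hb⟩ => ?_, fun h => ?_⟩
  · unfold rep
    rw [card_le_one]
    rintro ⟨u, u'⟩ hu ⟨v, v'⟩ hv
    rw [mem_filter, mem_product, mem_image, mem_image] at hu hv
    obtain ⟨⟨⟨x, hx, hxu⟩, ⟨y, hy, hyu⟩⟩, hs⟩ := hu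
    obtain ⟨⟨⟨x', hx', hxv⟩, ⟨y', hy', hyv⟩⟩, hs'⟩ := hv
    dsimp only at hxu hyu hs hxv hyv hs'
    subst hxu; subst hyu; subst hxv; subst hyv
    obtain ⟨rfl, rfl⟩ := huniq x hx y hy x' hx' y' hy' (key x hx y hy b hs) (key x' hx' y' hy' b hs')
    rfl
  · unfold rep at hb ⊢
    rw [Nat.one_le_iff_ne_zero, ← Nat.pos_iff_ne_zero, card_pos] at hb ⊢
    obtain ⟨⟨u, u'⟩, hu⟩ := hb
    rw [mem_filter, mem_product, mem_image, mem_image] at hu
    obtain ⟨⟨⟨x, hx, hxu⟩, ⟨y, hy, hyu⟩⟩, hs⟩ := hu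
    dsimp only at hxu hyu hs
    subst hxu; subst hyu
    exact ⟨(x, y), by rw [mem_filter, mem_product]; exact ⟨⟨hx, hy⟩, key x hx y hy b hs⟩⟩
  · unfold rep at h
    rw [Nat.one_le_iff_ne_zero, ← Nat.pos_iff_ne_zero, card_pos] at h
    obtain ⟨⟨x, y⟩, hxy⟩ := h
    rw [mem_filter, mem_product] at hxy
    obtain ⟨⟨hx, hy⟩, hs⟩ := hxy
    obtain ⟨b, hb⟩ := exists_qry (a := a) hp hq hs
    refine ⟨b, ?_⟩
    unfold rep
    rw [Nat.one_le_iff_ne_zero, ← Nat.pos_iff_ne_zero, card_pos]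
    exact ⟨(hsh p q a x, hsh p q a y), by
      rw [mem_filter, mem_product]
      exact ⟨⟨mem_image_of_mem _ hx, mem_image_of_mem _ hy⟩, hb⟩⟩

end Pool.Agent.J4H94.IX
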