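import Pool.Agent.J4H22.IX.Stm2

set_option autoImplicit false

/-! # Project IX, second part: majority of independent copies (AMP) -/

namespace Pool.Agent.J4H94.IX

open Finset Pool.Agent.J4H22.IX

/-- the indicator of a set and of its complement -/
theorem ind_compl {Ω : Type} [Fintype Ω] (μ : Ω → ℝ) (S : Set Ω) :
    ∑ ω, S.indicator μ ω + ∑ ω, Sᶜ.indicator μ ω = ∑ ω, μ ω := by
  rw [← sum_add_distrib]
  exact sum_congr rfl fun ω _ => Set.indicator_self_add_compl_apply S μ ω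

theorem ind_mono {Ω : Type} [Fintype Ω] (μ : Ω → ℝ) (hμ : ∀ ω, 0 ≤ μ ω) {S T : Set Ω} (h : S ⊆ T) :
    ∑ ω, S.indicator μ ω ≤ ∑ ω, T.indicator μ ω :=
  sum_le_sum fun ω _ => Set.indicator_le_indicator_of_subset h hμ ω

/-- the majority of the answers is right if fewer than `k` of the `2 k` answers are wrong -/
theorem maj_ok {A B : Finset ℕ} {z k : ℕ} {ans : Fin (2 * k) → Bool}
    (h : {j | ¬ OkWeak A B z (ans j)}.ncard < k) :
    OkWeak A B z (decide (k < {j | ans j = true}.ncard)) := by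
  intro h1
  rw [decide_eq_true_iff]
  have hgood : ∀ j, OkWeak A B z (ans j) ↔ (ans j = true ↔ 1 ≤ rep A B z) :=
    fun j => ⟨fun h => h h1, fun h _ => h⟩
  by_cases hr : 1 ≤ rep A B z
  · simp only [hr, iff_true]
    have e : {j | ¬ OkWeak A B z (ans j)} = {j | ans j = true}ᶜ := by
      ext j
      simp [hgood, hr]
    rw [e] at h
    have h2 := Set.ncard_add_ncard_compl {j | ans j = true}
    rw [Nat.card_eq_fintype_card, Fintype.card_fin] at h2
    omega
  · simp only [hr, iff_false]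
    have e : {j | ¬ OkWeak A B z (ans j)} = {j | ans j = true} := by
      ext j
      simp [hgood, hr]
    rw [e] at h
    omega

theorem t_AMP : S_AMP := by
  classical
  intro hCHE hTRE hIDX n N s w t k δ h0 h2 hk ⟨Ω, _, μ, Q, hμ, hs, hP, hQ⟩
  have key : ∀ f : Fin (2 * k) → Ω, ∃ Q' : ℕ → Tree (Fin (2 * k * s)) (Fin (2 ^ w)) Bool,
      (∀ z, (Q' z).Probes (2 * k * t)) ∧ ∀ m : Ω → Fin s → Fin (2 ^ w),
        ∃ m' : Fin (2 * k * s) → Fin (2 ^ w), ∀ z, (Q' z).eval m' =
          decide (k < {j | (Q (f j) z).eval (m (f j)) = true}.ncard) := by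
    intro f
    have h1 : ∀ z, ∃ T : Tree (Empty ⊕ Fin (2 * k) × Fin s) (Fin (2 ^ w)) Bool,
        T.Probes (2 * k * t) ∧ ∀ m, T.eval m =
          decide (k < {j | (Q (f j) z).eval (fun i => m (Sum.inr (j, i))) = true}.ncard) := by
      intro z
      obtain ⟨T, hT, hT'⟩ := hTRE (Fin s) (Fin (2 ^ w)) Bool Bool Empty (Fin (2 * k))
        (fun c => if h : c < 2 * k then Q (f ⟨c, h⟩) z else Tree.ret false) t
        (fun c => by
          split_ifs with h
          · exact hP _ _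
          · cases t <;> trivial)
        (fun _ c => c) (fun _ ans => decide (k < {j | ans j = true}.ncard))
      refine ⟨T, ?_, fun m => ?_⟩
      · simpa using hT
      · rw [hT' m]
        simp
    choose T hT hT' using h1
    obtain ⟨Q', h3, h4⟩ := hIDX (Empty ⊕ Fin (2 * k) × Fin s) (Fin (2 ^ w)) Bool (2 * k * s)
      (2 * k * t) (by simp) T hT
    refine ⟨Q', h3, fun m => ?_⟩
    obtain ⟨m', hm'⟩ := h4 (Sum.elim (fun e => e.elim) (fun p => m (f p.1) p.2))
    refine ⟨m', fun z => ?_⟩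
    rw [hm' z, hT' z]
    rfl
  choose Q' hP' hQ' using key
  refine ⟨Fin (2 * k) → Ω, inferInstance, fun f => ∏ j, μ (f j), Q',
    fun f => prod_nonneg fun j _ => hμ _, ?_, hP', fun A B hA hB hA' hB' => ?_⟩
  · rw [← Fintype.sum_pow, hs, one_pow]
  obtain ⟨m, hm⟩ := hQ A B hA hB hA' hB'
  choose m' hm' using fun f => hQ' f m
  refine ⟨m', fun z => ?_⟩
  set Bad : Set Ω := {ω | OkWeak A B z ((Q ω z).eval (m ω))}ᶜ with hBad
  have hb : ∑ ω, Bad.indicator μ ω ≤ 1 / 2 - δ := by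
    have := ind_compl μ {ω | OkWeak A B z ((Q ω z).eval (m ω))}
    have := hm z
    linarith
  have h5 := hCHE Ω μ Bad δ k h0 h2 hμ hs hb
  have h6 := ind_compl (fun f : Fin (2 * k) → Ω => ∏ j, μ (f j))
    {f | k ≤ {j | f j ∈ Bad}.ncard}
  rw [← Fintype.sum_pow, hs, one_pow] at h6
  have h7 : ∑ f, ({f | k ≤ {j | f j ∈ Bad}.ncard} : Set (Fin (2 * k) → Ω))ᶜ.indicator
      (fun f => ∏ j, μ (f j)) f ≤
      ∑ f, ({f | OkWeak A B z ((Q' f z).eval (m' f))} : Set (Fin (2 * k) → Ω)).indicator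
        (fun f => ∏ j, μ (f j)) f := by
    refine ind_mono _ (fun f => prod_nonneg fun j _ => hμ _) fun f hf => ?_
    change OkWeak A B z ((Q' f z).eval (m' f))
    rw [hm' f z]
    apply maj_ok
    exact not_le.1 hf
  linarith

end Pool.Agent.J4H94.IX
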