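import Pool.Agent.J4H22.IX.Stm2

set_option autoImplicit false

/-! # Project IX, second part: Chernoff (CHE) and Newman (NEW) -/

namespace Pool.Agent.J4H94.IX

open Finset Pool.Agent.J4H22.IX

/-- the exponential moment -/
theorem mom {Ω : Type} [Fintype Ω] (μ : Ω → ℝ) (Bad : Set Ω) (n K : ℕ) (lam β : ℝ) (h1 : 1 ≤ lam)
    (hμ : ∀ ω, 0 ≤ μ ω) (hs : ∑ ω, μ ω = 1) (hb : ∑ ω, Bad.indicator μ ω ≤ β) :
    lam ^ K * ∑ f : Fin n → Ω, ({f | K ≤ {j | f j ∈ Bad}.ncard} : Set (Fin n → Ω)).indicator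
      (fun f => ∏ j, μ (f j)) f ≤ (1 + (lam - 1) * β) ^ n := by
  classical
  set g : Ω → ℝ := fun ω => μ ω * (if ω ∈ Bad then lam else 1) with hg
  have hlam : 0 ≤ lam := by linarith
  have hg0 : ∀ ω, 0 ≤ g ω := fun ω => mul_nonneg (hμ ω) (by split_ifs <;> linarith)
  have hprod : ∀ f : Fin n → Ω, ∏ j, g (f j) = (∏ j, μ (f j)) * lam ^ ({j | f j ∈ Bad}.ncard) := by
    intro f
    simp only [hg, prod_mul_distrib]
    congr 1
    rw [prod_ite, prod_const, prod_const_one, mul_one, Set.ncard_eq_toFinset_card',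
      Set.toFinset_ofPred]
  have hsum : ∑ ω, g ω ≤ 1 + (lam - 1) * β := by
    have h : ∑ ω, g ω = 1 + (lam - 1) * ∑ ω, Bad.indicator μ ω := by
      have h' : ∑ ω, g ω = ∑ ω, μ ω + (lam - 1) * ∑ ω, Bad.indicator μ ω := by
        rw [mul_sum, ← sum_add_distrib]
        refine sum_congr rfl fun ω _ => ?_
        simp only [hg, Set.indicator_apply]
        split_ifs <;> ring
      rw [h', hs]
    rw [h]
    nlinarith
  have hsum0 : 0 ≤ ∑ ω, g ω := sum_nonneg fun ω _ => hg0 ω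
  calc lam ^ K * (∑ f : Fin n → Ω, ({f | K ≤ {j | f j ∈ Bad}.ncard} : Set (Fin n → Ω)).indicator
      (fun f => ∏ j, μ (f j)) f) ≤ ∑ f : Fin n → Ω, ∏ j, g (f j) := by
        rw [mul_sum]
        refine sum_le_sum fun f _ => ?_
        rw [Set.indicator_apply]
        split_ifs with h
        · rw [hprod, mul_comm]
          exact mul_le_mul_of_nonneg_left (pow_le_pow_right₀ h1 h) (prod_nonneg fun j _ => hμ _)
        · rw [mul_zero]
          exact prod_nonneg fun j _ => hg0 _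
    _ = (∑ ω, g ω) ^ n := (Fintype.sum_pow g n).symm
    _ ≤ _ := pow_le_pow_left₀ hsum0 hsum n

theorem t_CHE : S_CHE := by
  intro Ω _ μ Bad δ k h0 h2 hμ hs hb
  have hd : 0 < 1 - 2 * δ := by linarith
  set lam : ℝ := (1 + 2 * δ) / (1 - 2 * δ) with hlam
  have h1 : 1 ≤ lam := by
    rw [hlam, le_div_iff₀ hd]
    linarith
  have h := mom μ Bad (2 * k) k lam (1 / 2 - δ) h1 hμ hs hb
  have h3 : (1 + (lam - 1) * (1 / 2 - δ)) = 1 + 2 * δ := by
    rw [hlam]
    field_simp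
    ring
  rw [h3] at h
  have h4 : 0 < lam ^ k := by positivity
  have h5 : (1 + 2 * δ) ^ (2 * k) = lam ^ k * (1 - 4 * δ ^ 2) ^ k := by
    rw [pow_mul, ← mul_pow]
    congr 1
    rw [hlam]
    field_simp
    ring
  rw [h5] at h
  exact le_of_mul_le_mul_left h h4

theorem t_NEW : S_NEW := by
  classical
  intro Ω ι _ μ Z Bad m hm hμ hs hb hZ
  by_contra hcon
  push Not at hcon
  have h1 : ∀ z ∈ Z, ∑ f : Fin (8 * m) → Ω,
      ({f | m ≤ {j | f j ∈ Bad z}.ncard} : Set (Fin (8 * m) → Ω)).indicator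
      (fun f => ∏ j, μ (f j)) f ≤ (((79 : ℝ) / 64) ^ 8 / 16) ^ m := by
    intro z hz
    have h := mom μ (Bad z) (8 * m) m 16 (1 / 64) (by norm_num) hμ hs (hb z hz)
    rw [div_pow, le_div_iff₀ (by positivity), ← pow_mul, mul_comm]
    have e : (1 + ((16 : ℝ) - 1) * (1 / 64)) = 79 / 64 := by norm_num
    rwa [e] at h
  have h2 : (1 : ℝ) ≤ ∑ z ∈ Z, ∑ f : Fin (8 * m) → Ω,
      ({f | m ≤ {j | f j ∈ Bad z}.ncard} : Set (Fin (8 * m) → Ω)).indicator
      (fun f => ∏ j, μ (f j)) f := by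
    rw [sum_comm]
    calc (1 : ℝ) = ∑ f : Fin (8 * m) → Ω, ∏ j, μ (f j) := by
          rw [← Fintype.sum_pow, hs, one_pow]
      _ ≤ _ := by
          refine sum_le_sum fun f _ => ?_
          obtain ⟨z, hz, h⟩ := hcon f
          have h3 : (∏ j, μ (f j)) = ({f | m ≤ {j | f j ∈ Bad z}.ncard} :
              Set (Fin (8 * m) → Ω)).indicator (fun f => ∏ j, μ (f j)) f := by
            rw [Set.indicator_of_mem]
            exact h
          rw [h3]
          refine single_le_sum (f := fun z => ({f | m ≤ {j | f j ∈ Bad z}.ncard} :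
              Set (Fin (8 * m) → Ω)).indicator (fun f => ∏ j, μ (f j)) f) (fun z _ => ?_) hz
          exact Set.indicator_nonneg (fun f _ => prod_nonneg fun j _ => hμ _) f
  have h3 : ∑ z ∈ Z, ∑ f : Fin (8 * m) → Ω,
      ({f | m ≤ {j | f j ∈ Bad z}.ncard} : Set (Fin (8 * m) → Ω)).indicator
      (fun f => ∏ j, μ (f j)) f ≤ (((79 : ℝ) / 64) ^ 8 / 8) ^ m := by
    calc _ ≤ ∑ z ∈ Z, (((79 : ℝ) / 64) ^ 8 / 16) ^ m := sum_le_sum h1
      _ = Z.card * (((79 : ℝ) / 64) ^ 8 / 16) ^ m := by rw [sum_const, nsmul_eq_mul]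
      _ ≤ 2 ^ m * (((79 : ℝ) / 64) ^ 8 / 16) ^ m := by
          refine mul_le_mul_of_nonneg_right ?_ (by positivity)
          exact_mod_cast hZ
      _ = _ := by rw [← mul_pow]; congr 1; ring
  have h4 : (((79 : ℝ) / 64) ^ 8 / 8) ^ m < 1 := by
    apply pow_lt_one₀ (by positivity) (by norm_num) (by omega)
  linarith

end Pool.Agent.J4H94.IX
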