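import Pool.Agent.J4H22.IX.Stm3
import Pool.Agent.J4H94.IX.Amp

set_option autoImplicit false

/-! # Project IX, third part: majority of independent copies for a class (AMC) -/

namespace Pool.Agent.J4H94.IX

open Finset Pool.Agent.J4H22.IX

theorem t_AMC : S_AMC := by
  classical
  intro hCHE hTRE hIDX Cl s w t k δ h0 h2 hk ⟨Ω, _, μ, Q, hμ, hs, hP, hQ⟩
  have key : ∀ f : Fin (2 * k) → Ω, ∃ Q' : ℕ → Tree (Fin (2 * k * s)) (Fin (2 ^ w)) Bool,
      (∀ z, (Q' z).Probes (2 * k * t)) ∧ ∀ m : Ω → Fin s → Fin (2 ^ w),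
        ∃ m' : Fin (2 * k * s) → Fin (2 ^ w), ∀ z, (Q' z).eval m' =
          decide (k < {j | (Q (f j) z).eval (m (f j)) = true}.ncard) := by
    intro f
    have h1 : ∀ z, ∃ T : Tree (Empty ⊕ Fin (2 * k) × Fin s) (Fin (2 ^ w)) Bool,
        T.Probes (2 * k * t) ∧ ∀ m, T.eval m =
          decide (k < {j | (Q (f j) z).eval (fun i => m (Sum.inr (j, i))) = true}.ncard) := by
      intro z
      obtain ⟨T, hT, hT'⟩ := hTRE (Fin s) (Fin (2 ^ w)) Bool Bool Empty (Fin (2 * k))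
        (fun c => if h : c < 2 * k then Q (f ⟨c, h⟩) z else Tree.ret false) t
        (fun c => by
          split_ifs with h
          · exact hP _ _
          · cases t <;> trivial)
        (fun _ c => c) (fun _ ans => decide (k < {j | ans j = true}.ncard))
      refine ⟨T, ?_, fun m => ?_⟩
      · simpa using hT
      · rw [hT' m]
        simp
    choose T hT hT' using h1
    obtain ⟨Q', h3, h4⟩ := hIDX (Empty ⊕ Fin (2 * k) × Fin s) (Fin (2 ^ w)) Bool (2 * k * s)
      (2 * k * t) (by simp) T hT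
    refine ⟨Q', h3, fun m => ?_⟩
    obtain ⟨m', hm'⟩ := h4 (Sum.elim (fun e => e.elim) (fun p => m (f p.1) p.2))
    refine ⟨m', fun z => ?_⟩
    rw [hm' z, hT' z]
    rfl
  choose Q' hP' hQ' using key
  refine ⟨Fin (2 * k) → Ω, inferInstance, fun f => ∏ j, μ (f j), Q',
    fun f => prod_nonneg fun j _ => hμ _, ?_, hP', fun A B hA hB => ?_⟩
  · rw [← Fintype.sum_pow, hs, one_pow]
  obtain ⟨m, hm⟩ := hQ A B hA hB
  choose m' hm' using fun f => hQ' f m
  refine ⟨m', fun z => ?_⟩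
  set Bad : Set Ω := {ω | OkWeak A B z ((Q ω z).eval (m ω))}ᶜ with hBad
  have hb : ∑ ω, Bad.indicator μ ω ≤ 1 / 2 - δ := by
    have := ind_compl μ {ω | OkWeak A B z ((Q ω z).eval (m ω))}
    have := hm z
    linarith
  have h5 := hCHE Ω μ Bad δ k h0 h2 hμ hs hb
  have h6 := ind_compl (fun f : Fin (2 * k) → Ω => ∏ j, μ (f j))
    {f | k ≤ {j | f j ∈ Bad}.ncard}
  rw [← Fintype.sum_pow, hs, one_pow] at h6
  have h7 : ∑ f, ({f | k ≤ {j | f j ∈ Bad}.ncard} : Set (Fin (2 * k) → Ω))ᶜ.indicator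
      (fun f => ∏ j, μ (f j)) f ≤
      ∑ f, ({f | OkWeak A B z ((Q' f z).eval (m' f))} : Set (Fin (2 * k) → Ω)).indicator
        (fun f => ∏ j, μ (f j)) f := by
    refine ind_mono _ (fun f => prod_nonneg fun j _ => hμ _) fun f hf => ?_
    change OkWeak A B z ((Q' f z).eval (m' f))
    rw [hm' f z]
    apply maj_ok
    exact not_le.1 hf
  linarith

end Pool.Agent.J4H94.IX
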