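import Pool.Agent.J4H22.IX.Stm3
import Pool.Agent.J4H94.IX.Hg

set_option autoImplicit false

/-! # Project IX, third part, (HGC): a multiplier is good for the convolution form -/

namespace Pool.Agent.J4H94.IX

open Finset Pool.Agent.J4H22.IX

theorem div_mod_uniq {m a b c d : ℕ} (hb : b < m) (hd : d < m) (h : m * a + b = m * c + d) :
    a = c ∧ b = d := by
  have hm : 0 < m := by omega
  have h1 : a = c := by
    have h2 : (m * a + b) / m = (m * c + d) / m := by rw [h]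
    rwa [Nat.mul_add_div hm, Nat.mul_add_div hm, Nat.div_eq_of_lt hb, Nat.div_eq_of_lt hd,
      add_zero, add_zero] at h2
  subst h1
  exact ⟨rfl, by omega⟩

theorem spr_sum {n h h' : ℕ} :
    spr n h + spr n h' = 2 * n * (h / n + h' / n) + (h % n + h' % n) := by
  unfold spr
  ring

theorem spr_key {n h h' ζ : ℕ} (hn : 1 ≤ n) (e : Fin 2) (heq : spr n h + spr n h' = qcv n ζ e) :
    h + h' = ζ := by
  rw [spr_sum] at heq
  have h1 := Nat.div_add_mod h n
  have h2 := Nat.div_add_mod h' n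
  have h3 := Nat.div_add_mod ζ n
  have h1' := Nat.mod_lt h hn
  have h2' := Nat.mod_lt h' hn
  have h3' := Nat.mod_lt ζ hn
  unfold qcv at heq
  split_ifs at heq with hc
  · have h4 := div_mod_uniq (m := 2 * n) (by omega) (by omega)
      (heq.trans (by ring : ζ / n * (2 * n) + ζ % n = 2 * n * (ζ / n) + ζ % n))
    have h5 : n * (h / n + h' / n) = n * (ζ / n) := by rw [h4.1]
    rw [mul_add] at h5
    omega
  · have h0 : ζ / n ≠ 0 := fun h => hc (Or.inr h)
    obtain ⟨k, hk⟩ : ∃ k, ζ / n = k + 1 := Nat.exists_eq_succ_of_ne_zero h0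
    rw [hk] at heq h3
    have h4 := div_mod_uniq (m := 2 * n) (by omega) (by omega)
      (heq.trans (by rw [Nat.add_sub_cancel]; ring :
        (k + 1 - 1) * (2 * n) + ζ % n + n = 2 * n * k + (ζ % n + n)))
    have h5 : n * (h / n + h' / n) = n * k := by rw [h4.1]
    rw [mul_add] at h5
    rw [mul_add] at h3
    omega

theorem exists_qcv {n h h' ζ : ℕ} (hn : 1 ≤ n) (heq : h + h' = ζ) :
    ∃ e, spr n h + spr n h' = qcv n ζ e := by
  have h1 := Nat.div_add_mod h n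
  have h2 := Nat.div_add_mod h' n
  have h3 := Nat.div_add_mod ζ n
  have h1' := Nat.mod_lt h hn
  have h2' := Nat.mod_lt h' hn
  have h3' := Nat.mod_lt ζ hn
  rcases lt_or_ge (h % n + h' % n) n with hlt | hge
  · refine ⟨0, ?_⟩
    have h4 : n * (h / n + h' / n) + (h % n + h' % n) = n * (ζ / n) + ζ % n := by
      rw [mul_add]; omega
    have h5 := div_mod_uniq hlt h3' h4
    rw [spr_sum, h5.1, h5.2]
    unfold qcv
    rw [if_pos (Or.inl rfl)]
    ring
  · refine ⟨1, ?_⟩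
    have h4 : n * (h / n + h' / n + 1) + (h % n + h' % n - n) = n * (ζ / n) + ζ % n := by
      rw [mul_add, mul_add]; omega
    have h5 := div_mod_uniq (by omega) h3' h4
    rw [spr_sum]
    unfold qcv
    rw [← h5.1, if_neg (by simp), Nat.add_sub_cancel, ← h5.2]
    have h6 : h % n + h' % n = (h % n + h' % n - n) + n := by omega
    rw [h6, Nat.add_sub_cancel]
    ring

theorem t_HGC : S_HGC := by
  classical
  intro p q n A B z a hq hp hn hz hbad halone
  have key : ∀ x ∈ A, ∀ y ∈ B, ∀ b e, spr n (hsh p q a x) + spr n (hsh p q a y) =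
      qcv n (qry p q a z b) e → x + y = z := by
    intro x hx y hy b e hb
    by_contra hne
    obtain ⟨d, hd, hdvd⟩ := near hq b (spr_key hn e hb)
    exact hbad x hx y hy hne d hd hdvd
  have huniq : ∀ x ∈ A, ∀ y ∈ B, ∀ x' ∈ A, ∀ y' ∈ B, x + y = z → x' + y' = z → x = x' ∧ y = y' := by
    intro x hx y hy x' hx' y' hy' h h'
    have h1 := card_le_one.1 hz (x, y) (by rw [mem_filter, mem_product]; exact ⟨⟨hx, hy⟩, h⟩)
      (x', y') (by rw [mem_filter, mem_product]; exact ⟨⟨hx', hy'⟩, h'⟩)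
    rw [Prod.mk.injEq] at h1
    exact h1
  refine ⟨fun b e => ?_, fun ⟨b, e, hb⟩ => ?_, fun h => ?_⟩
  · unfold rep cvs
    rw [card_le_one]
    rintro ⟨u, u'⟩ hu ⟨v, v'⟩ hv
    rw [mem_filter, mem_product, mem_image, mem_image] at hu hv
    obtain ⟨⟨⟨x, hx, hxu⟩, ⟨y, hy, hyu⟩⟩, hs⟩ := hu
    obtain ⟨⟨⟨x', hx', hxv⟩, ⟨y', hy', hyv⟩⟩, hs'⟩ := hv
    dsimp only at hxu hyu hs hxv hyv hs'
    subst hxu; subst hyu; subst hxv; subst hyv
    obtain ⟨rfl, rfl⟩ := huniq x (mem_filter.1 hx).1 y (mem_filter.1 hy).1 x' (mem_filter.1 hx').1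
      y' (mem_filter.1 hy').1 (key x (mem_filter.1 hx).1 y (mem_filter.1 hy).1 b e hs)
      (key x' (mem_filter.1 hx').1 y' (mem_filter.1 hy').1 b e hs')
    rfl
  · unfold rep cvs at hb
    unfold rep
    rw [Nat.one_le_iff_ne_zero, ← Nat.pos_iff_ne_zero, card_pos] at hb ⊢
    obtain ⟨⟨u, u'⟩, hu⟩ := hb
    rw [mem_filter, mem_product, mem_image, mem_image] at hu
    obtain ⟨⟨⟨x, hx, hxu⟩, ⟨y, hy, hyu⟩⟩, hs⟩ := hu
    dsimp only at hxu hyu hs
    subst hxu; subst hyu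
    exact ⟨(x, y), by
      rw [mem_filter, mem_product]
      exact ⟨⟨(mem_filter.1 hx).1, (mem_filter.1 hy).1⟩,
        key x (mem_filter.1 hx).1 y (mem_filter.1 hy).1 b e hs⟩⟩
  · unfold rep at h
    rw [Nat.one_le_iff_ne_zero, ← Nat.pos_iff_ne_zero, card_pos] at h
    obtain ⟨⟨x, y⟩, hxy⟩ := h
    rw [mem_filter, mem_product] at hxy
    obtain ⟨⟨hx, hy⟩, hs⟩ := hxy
    obtain ⟨b, hb⟩ := exists_qry (a := a) hp hq hs
    obtain ⟨e, he⟩ := exists_qcv hn hb
    obtain ⟨hax, hay⟩ := halone x hx y hy hs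
    refine ⟨b, e, ?_⟩
    unfold rep cvs
    rw [Nat.one_le_iff_ne_zero, ← Nat.pos_iff_ne_zero, card_pos]
    refine ⟨(spr n (hsh p q a x), spr n (hsh p q a y)), ?_⟩
    rw [mem_filter, mem_product]
    exact ⟨⟨mem_image_of_mem (fun x => spr n (hsh p q a x)) (mem_filter.2 ⟨hx, hax⟩),
      mem_image_of_mem (fun x => spr n (hsh p q a x)) (mem_filter.2 ⟨hy, hay⟩)⟩, he⟩

end Pool.Agent.J4H94.IX
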